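import Mathlib
import Pool.Agent.Q122.FPR.Glob

/-! # Excellent regular rings of prime characteristic are F-pure regular -/

set_option autoImplicit false

namespace Pool.Agent.Results.MP_9ff724_al.FPureRegular

open Pool.Agent.Q122.FPR TensorProduct

universe u

/-- `F^e_* R`: the ring `R`, regarded as an `R`-module through the `e`-th power of Frobenius. -/
def FrobPush (R : Type u) (_p _e : ℕ) : Type u := R

noncomputable instance instAddCommGroupFrobPush (R : Type u) [CommRing R] (p e : ℕ) :
    AddCommGroup (FrobPush R p e) := inferInstanceAs (AddCommGroup R)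

/-- `r • F^e_* s = F^e_* (r ^ (p ^ e) * s)`. -/
noncomputable instance instModuleFrobPush (R : Type u) [CommRing R] (p e : ℕ) [ExpChar R p] :
    Module R (FrobPush R p e) :=
  (Module.compHom R (iterateFrobenius R p e) : Module R R)

/-- `s ↦ F^e_* s`. -/
def toPush {R : Type u} (p e : ℕ) (s : R) : FrobPush R p e := s

/-- `F^e_* s ↦ s`. -/
def ofPush {R : Type u} {p e : ℕ} (x : FrobPush R p e) : R := x

lemma ofPush_smul {R : Type u} [CommRing R] {p e : ℕ} [ExpChar R p] (r : R)
    (x : FrobPush R p e) : ofPush (r • x) = r ^ (p ^ e) * ofPush x := rfl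

lemma ofPush_sum {R : Type u} [CommRing R] {p e : ℕ} {ι : Type} (s : Finset ι)
    (x : ι → FrobPush R p e) : ofPush (∑ i ∈ s, x i) = ∑ i ∈ s, ofPush (x i) := rfl

/-- The `R`-linear map `λ_c^e : R → F^e_* R`, `r ↦ F^e_* (c r ^ (p ^ e))`. -/
noncomputable def lam {R : Type u} [CommRing R] (p e : ℕ) [ExpChar R p] (c : R) :
    R →ₗ[R] FrobPush R p e where
  toFun r := toPush p e (c * r ^ (p ^ e))
  map_add' x y := by
    have h : (x + y) ^ (p ^ e) = x ^ (p ^ e) + y ^ (p ^ e) := map_add (iterateFrobenius R p e) x y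
    show c * (x + y) ^ (p ^ e) = c * x ^ (p ^ e) + c * y ^ (p ^ e)
    rw [h, mul_add]
  map_smul' r x := by
    show c * (r * x) ^ (p ^ e) = r ^ (p ^ e) * (c * x ^ (p ^ e))
    rw [mul_pow]
    ring

/-- Purity: the map stays injective after tensoring with any module. -/
def IsPure {R : Type u} [CommRing R] {M N : Type u} [AddCommGroup M] [AddCommGroup N] [Module R M]
    [Module R N] (f : M →ₗ[R] N) : Prop :=
  ∀ (P : Type u) [AddCommGroup P] [Module R P], Function.Injective (LinearMap.rTensor P f)

/-- `R` is F-pure regular: for every `c` in no minimal prime, some `λ_c^e`, `e ≥ 1`, is pure. -/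
def IsFPureRegular (R : Type u) [CommRing R] (p : ℕ) [ExpChar R p] : Prop :=
  ∀ c : R, (∀ 𝔮 ∈ minimalPrimes R, c ∉ 𝔮) → ∃ e ≥ 1, IsPure (lam p e c)

/-- Kunz: Frobenius is flat on a regular ring. -/
theorem flat_frobPush (R : Type u) [CommRing R] [IsRegularRing R] (p e : ℕ) [ExpChar R p]
    (hF : IsFrob R (p ^ e)) : Module.Flat R (FrobPush R p e) := by
  apply Module.Flat.of_forall_isTrivialRelation
  intro l f x hx
  have hx' : (fun i => ofPush (x i)) ∈ Rel (p ^ e) f := by
    rw [mem_Rel]
    exact hx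
  obtain ⟨n, y, g, hg⟩ := Submodule.mem_span_set'.1 (eqFlat_of_regularRing hF _ f hx')
  choose a ha1 ha2 using fun j => (g j).2
  refine ⟨n, fun i j => a j i, fun j => toPush p e (y j), fun i => ?_, fun j => ha1 j⟩
  have h1 := congrFun hg i
  simp only [Finset.sum_apply, Pi.smul_apply, smul_eq_mul, ha2] at h1
  have h2 : ofPush (x i) = ∑ j, a j i ^ (p ^ e) * y j := by
    rw [← h1]
    exact Finset.sum_congr rfl fun j _ => mul_comm _ _
  exact h2

/-- A map from `R` to a flat module is pure if the image of `1` avoids `𝔪 N` for all `𝔪`. -/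
theorem isPure_lam (R : Type u) [CommRing R] (p e : ℕ) [ExpChar R p]
    (hflat : Module.Flat R (FrobPush R p e)) (c : R)
    (hc : ∀ (m : Ideal R) [m.IsMaximal], c ∉ fpow (p ^ e) m) : IsPure (lam p e c) := by
  intro P _ _
  rw [injective_iff_map_eq_zero]
  intro z hz
  obtain ⟨x, rfl⟩ : ∃ x : P, (1 : R) ⊗ₜ[R] x = z :=
    ⟨TensorProduct.lid R P z, by
      rw [← TensorProduct.lid_symm_apply, LinearEquiv.symm_apply_apply]⟩
  rw [LinearMap.rTensor_tmul] at hz
  have hc1 : lam p e c 1 = toPush p e c := by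
    show c * 1 ^ (p ^ e) = c
    rw [one_pow, mul_one]
  rw [hc1] at hz
  have hz' : ∑ _i : Unit, x ⊗ₜ[R] (toPush p e c) = (0 : P ⊗[R] FrobPush R p e) := by
    rw [Finset.univ_unique, Finset.sum_singleton]
    have := congrArg (TensorProduct.comm R (FrobPush R p e) P) hz
    rw [TensorProduct.comm_tmul, map_zero] at this
    exact this
  have hv := TensorProduct.vanishesTrivially_of_sum_tmul_eq_zero_of_rTensor_injective R
    (m := fun _ : Unit => x) (n := fun _ : Unit => toPush p e c)
    (Module.Flat.rTensor_preserves_injective_linearMap _ (Submodule.injective_subtype _)) hz'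
  obtain ⟨κ, a, y, h1, h2⟩ := hv
  have h3 : c = ∑ j, a () j ^ (p ^ e) * ofPush (y j) := h1 ()
  have h4 : ∀ j, a () j • x = 0 := by
    intro j
    have := h2 j
    rwa [Finset.univ_unique, Finset.sum_singleton] at this
  by_contra hne
  have hx0 : x ≠ 0 := by
    rintro rfl
    exact hne (TensorProduct.tmul_zero _ _)
  let A : Ideal R := LinearMap.ker (LinearMap.toSpanSingleton R P x)
  have hA : A ≠ ⊤ := by
    intro h
    have : (1 : R) ∈ A := by rw [h]; trivial
    have h5 : (1 : R) • x = 0 := this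
    rw [one_smul] at h5
    exact hx0 h5
  obtain ⟨m, hm, hAm⟩ := Ideal.exists_le_maximal A hA
  refine hc m ?_
  rw [h3]
  exact Ideal.sum_mem _ fun j _ => Ideal.mul_mem_right _ _ (pow_mem_fpow (hAm (h4 j)))

/-- **Main result.** Let `R` be a regular (Noetherian) ring of prime characteristic `p` such that
for every prime `P` the regular locus of `R / P` contains a nonempty open set (this is part of the
condition J-2 in the definition of excellent rings). Then `R` is F-pure regular. -/
theorem result (R : Type u) [CommRing R] [IsRegularRing R] (p : ℕ) [Fact p.Prime] [CharP R p]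
    (hJ : ∀ (P : Ideal R) [P.IsPrime], ∃ f : R ⧸ P, f ≠ 0 ∧ ∀ (𝔮 : Ideal (R ⧸ P)) [𝔮.IsPrime],
      f ∉ 𝔮 → IsRegularLocalRing (Localization.AtPrime 𝔮)) :
    IsFPureRegular R p := by
  intro c hc
  have hp := (Fact.out : p.Prime)
  have hF : ∀ e, IsFrob R (p ^ e) := fun e =>
    ⟨pow_pos hp.pos e, fun x y => add_pow_char_pow x y p e⟩
  obtain ⟨e0, h0⟩ := uniform hp.two_le hF hJ c hc
  refine ⟨max e0 1, le_max_right _ _, ?_⟩
  apply isPure_lam R p _ (flat_frobPush R p _ (hF _))
  intro m hm
  have := hm.isPrime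
  exact h0 _ (le_max_left _ _) m

end Pool.Agent.Results.MP_9ff724_al.FPureRegular
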